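import Pool.Agent.J6H16.TH.AllA
import Pool.Agent.J6H16.TH.Fd

/-!
# The Hardy–Littlewood formula for the primes `n² + k²`, `n ≤ N`, for almost all `k ≤ K`, where `K` may be as small as
`N ^ (1 / 2 + ε)`

The asymptotic formula of the problem, which is the case `k = 1`, with the constant of Hardy and Littlewood for `n² + k²`, holds
for almost all `k ≤ K`, uniformly for `K ^ (1 + ε) ≤ N ≤ K ^ (2 - ε)`. This is a thin part of the theorem of Fouvry and Iwaniec
(there `K = N`): only the Gaussian integers `n + i k` in the sector `|arg| ≤ N ^ (-1 / 2 + ε)` are used.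

Proof (`Pool.Agent.J6H16.TH`, on top of the project GN, which has the exponent `2 / 3 + ε` in place of `1 / 2 + ε`): for
`M ^ (1 / 2 + ε) ≤ L ≤ M ^ (1 - ε)` we prove `∑_{l ≤ L} |∑_{m ≤ M} Λ(l² + m²) - M 𝔖(l)| ≪ L M (log M) ^ (-A)`. The linear sums of
level `L M ^ (1 - ε)` are those of GN. In the dispersion of the bilinear sums over the products `w v`,
`N(w) ≍ R²`, `M ^ (1 + ε) / L ≤ R² ≤ L M ^ (1 - ε)`, the determinant of the pairs `(w₁, w₂)` is now large (up to `R² L / M`, which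
may be a power of `M`). The frequencies of the Poisson formula then give bilinear forms in the rational numbers
`l₁ w₂ / w₁ (mod |Δ|)`, `Δ = Im (conj w₁ w₂)`; the ratio `w₂ / w₁` modulo `Δ` is constant along pairs with the same direction, and
the multiplicative large sieve, over the moduli `Δ`, bounds them.
-/

set_option autoImplicit false

namespace Pool.Agent.Results.MP_484c84_nt.ThinFamilySquareShifts

open Finset Filter Topology

/-- The partial products of the product of the problem: over the odd primes `p ≤ z`, the factors `1 - (-1/p) / (p - 1)`. -/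
noncomputable def partialC (z : ℕ) : ℝ :=
  ∏ p ∈ (Icc 3 z).filter Nat.Prime, (1 - (-1 : ℝ) ^ ((p - 1) / 2) / ((p : ℝ) - 1))

/-- The factor by which the constant for `n² + k²` differs from that for `n² + 1`: the factors of the product that belong to
the odd primes `p` dividing `k` are taken out. -/
noncomputable def factor (k : ℕ) : ℝ :=
  ∏ p ∈ k.primeFactors.filter (fun p => p ≠ 2), (1 - (-1 : ℝ) ^ ((p - 1) / 2) / ((p : ℝ) - 1))⁻¹

/-- The number of the integers `1 ≤ n ≤ N` for which `n² + k²` is a prime. For `k = 1` this is `P₁(N)`. -/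
noncomputable def count (k : ℕ) (N : ℝ) : ℕ :=
  {n : ℕ | 1 ≤ n ∧ (n : ℝ) ≤ N ∧ (n ^ 2 + k ^ 2).Prime}.ncard

/-- The conclusion for `k`: for all real `N` from `K ^ (1 + ε)` to `K ^ (2 - ε)`
`|count k N - (1 / 2) C (factor k) ∫_2^N dt / log t| ≤ N / (log K) ^ A`. -/
def Good (C ε : ℝ) (A : ℕ) (K : ℝ) (k : ℕ) : Prop :=
  ∀ N : ℝ, K ^ (1 + ε) ≤ N → N ≤ K ^ (2 - ε) →
    |(count k N : ℝ) - 1 / 2 * (C * factor k) * ∫ t in (2 : ℝ)..N, 1 / Real.log t| ≤ N / Real.log K ^ A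

open Classical in
/-- The number of the `1 ≤ k ≤ K` for which the conclusion fails. -/
noncomputable def exceptions (C ε : ℝ) (A : ℕ) (K : ℝ) : ℕ :=
  ((Icc 1 ⌊K⌋₊).filter (fun k => ¬ Good C ε A K k)).card

theorem count_eq (k : ℕ) (N : ℝ) (hN : 0 ≤ N) :
    (count k N : ℝ) = Pool.Agent.N782.GN.PP (fun _ => 1) k ⌊N⌋₊ := by
  classical
  have h1 : {n : ℕ | 1 ≤ n ∧ (n : ℝ) ≤ N ∧ (n ^ 2 + k ^ 2).Prime} =
      (((Icc 1 ⌊N⌋₊).filter (fun m => (k ^ 2 + m ^ 2).Prime) : Finset ℕ) : Set ℕ) := by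
    ext n
    simp only [Set.mem_ofPred_eq, coe_filter, mem_Icc]
    rw [Nat.le_floor_iff hN, add_comm (n ^ 2) (k ^ 2), and_assoc]
  unfold count
  rw [h1, Set.ncard_coe_finset]
  unfold Pool.Agent.N782.GN.PP
  rw [card_filter]
  push_cast
  refine sum_congr rfl fun n _ => ?_
  rw [one_mul]

/-- The factor of the product that belongs to an odd prime. -/
theorem chi_eq (p : ℕ) (hp : p.Prime) (h3 : 3 ≤ p) :
    ((ZMod.χ₄ (p : ZMod 4) : ℤ) : ℝ) = (-1 : ℝ) ^ ((p - 1) / 2) := by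
  have hodd : p % 2 = 1 := hp.eq_two_or_odd.resolve_left (by omega)
  rw [ZMod.χ₄_eq_neg_one_pow hodd]
  have : (p - 1) / 2 = p / 2 := by omega
  rw [this]
  push_cast
  rfl

theorem factor_ne (p : ℕ) (h3 : 3 ≤ p) : (1 - (-1 : ℝ) ^ ((p - 1) / 2) / ((p : ℝ) - 1)) ≠ 0 := by
  have hp : (3 : ℝ) ≤ p := by exact_mod_cast h3
  rcases neg_one_pow_eq_or ℝ ((p - 1) / 2) with h | h <;> rw [h]
  · have : (1 : ℝ) / ((p : ℝ) - 1) < 1 := by
      rw [div_lt_one (by linarith)]
      linarith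
    linarith
  · have : (-1 : ℝ) / ((p : ℝ) - 1) < 0 := div_neg_of_neg_of_pos (by norm_num) (by linarith)
    linarith

theorem pp_one (z : ℕ) : Pool.Agent.N782.GN.pp 1 z = partialC z := by
  unfold Pool.Agent.N782.GN.pp partialC
  have h1 : (Icc 3 z).filter (fun p : ℕ => p.Prime ∧ ¬ (p : ℤ) ∣ 1) = (Icc 3 z).filter Nat.Prime := by
    apply filter_congr
    intro p hp
    constructor
    · exact fun h => h.1
    · intro h
      refine ⟨h, fun hd => ?_⟩
      have := Int.natAbs_dvd_natAbs.2 hd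
      rw [Int.natAbs_natCast, Int.natAbs_one, Nat.dvd_one] at this
      exact h.one_lt.ne' this
  rw [h1]
  refine prod_congr rfl fun p hp => ?_
  rw [mem_filter, mem_Icc] at hp
  rw [chi_eq p hp.2 hp.1.1]

theorem pp_mul (l z : ℕ) (hl : 0 < l) (hz : l ≤ z) : Pool.Agent.N782.GN.pp l z = partialC z * factor l := by
  unfold Pool.Agent.N782.GN.pp partialC factor
  have h1 : (Icc 3 z).filter Nat.Prime = (Icc 3 z).filter (fun p : ℕ => p.Prime ∧ ¬ (p : ℤ) ∣ (l : ℤ)) ∪
      l.primeFactors.filter (fun p => p ≠ 2) := by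
    ext p
    simp only [mem_filter, mem_Icc, mem_union, Nat.mem_primeFactors, Int.natCast_dvd_natCast]
    constructor
    · rintro ⟨⟨h3, hz'⟩, hp⟩
      by_cases hd : p ∣ l
      · exact Or.inr ⟨⟨hp, hd, hl.ne'⟩, by omega⟩
      · exact Or.inl ⟨⟨h3, hz'⟩, hp, hd⟩
    · rintro (⟨⟨h3, hz'⟩, hp, -⟩ | ⟨⟨hp, hd, -⟩, h2⟩)
      · exact ⟨⟨h3, hz'⟩, hp⟩
      · have := hp.two_le
        exact ⟨⟨by omega, (Nat.le_of_dvd hl hd).trans hz⟩, hp⟩
  have hdis : Disjoint ((Icc 3 z).filter (fun p : ℕ => p.Prime ∧ ¬ (p : ℤ) ∣ (l : ℤ)))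
      (l.primeFactors.filter (fun p => p ≠ 2)) := by
    rw [disjoint_left]
    intro p hp hp'
    rw [mem_filter] at hp hp'
    exact hp.2.2 (Int.natCast_dvd_natCast.2 (Nat.dvd_of_mem_primeFactors hp'.1))
  rw [h1, prod_union hdis, mul_assoc, ← prod_mul_distrib]
  have h2 : ∏ p ∈ l.primeFactors.filter (fun p => p ≠ 2), ((1 - (-1 : ℝ) ^ ((p - 1) / 2) / ((p : ℝ) - 1)) *
      (1 - (-1 : ℝ) ^ ((p - 1) / 2) / ((p : ℝ) - 1))⁻¹) = 1 := by
    apply prod_eq_one
    intro p hp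
    rw [mem_filter, Nat.mem_primeFactors] at hp
    have := hp.1.1.two_le
    exact mul_inv_cancel₀ (factor_ne p (by omega))
  rw [h2, mul_one]
  refine prod_congr rfl fun p hp => ?_
  rw [mem_filter, mem_Icc] at hp
  rw [chi_eq p hp.2.1 hp.1.1]

/-- The constant for the denominator `l`. -/
theorem SS_eq (l : ℕ) (hl : 0 < l) : Pool.Agent.N782.GN.SS l = Pool.Agent.N782.GN.SS 1 * factor l := by
  obtain ⟨h1, -⟩ := Pool.Agent.N782.GN.c_ssl (l : ℤ) (by omega)
  obtain ⟨h2, -⟩ := Pool.Agent.N782.GN.c_ssl 1 (by omega)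
  have h3 := h2.mul_const (factor l)
  refine tendsto_nhds_unique (h1.congr' ?_) h3
  filter_upwards [eventually_ge_atTop l] with z hz
  rw [pp_mul l z hl hz, pp_one]

/-- **The Hardy–Littlewood formula for `n² + k²`, for almost all `k ≤ K`, uniformly for `K ^ (1 + ε) ≤ N ≤ K ^ (2 - ε)`.**
The product `C` of the problem converges to a positive number (so `c₁ = C / 2`), and for all `ε > 0`, `A` and all large `K`, all but
at most `K / (log K) ^ A` of the integers `1 ≤ k ≤ K` satisfy the formula, for all real `N` from `K ^ (1 + ε)` to `K ^ (2 - ε)`. -/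
theorem result : ∃ C : ℝ, 0 < C ∧ Tendsto partialC atTop (𝓝 C) ∧ ∀ (ε : ℝ) (A : ℕ), 0 < ε →
    ∃ K₀ : ℝ, ∀ K : ℝ, K₀ ≤ K → (exceptions C ε A K : ℝ) ≤ K / Real.log K ^ A := by
  classical
  obtain ⟨hC1, hC2⟩ := Pool.Agent.N782.GN.c_ssl 1 (by omega)
  refine ⟨Pool.Agent.N782.GN.SS 1, hC2, hC1.congr fun z => pp_one z, fun ε A hε => ?_⟩
  obtain ⟨L₀, h0, h⟩ := Pool.Agent.J6H16.TH.almost_all2 Pool.Agent.J6H16.TH.c_main2 Pool.Agent.N782.GN.c_ssl ε A hε
  refine ⟨L₀, fun L hL => ?_⟩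
  have hL3 : 3 ≤ L := h0.trans hL
  have hL0 : 0 < L := by linarith
  refine le_trans ?_ (h L hL)
  unfold exceptions
  rw [Nat.cast_le]
  apply card_le_card
  intro k hk
  rw [mem_filter] at hk ⊢
  refine ⟨hk.1, fun hg => hk.2 ?_⟩
  have hk1 : 1 ≤ k := (mem_Icc.1 hk.1).1
  intro N hN1 hN2
  have hN0 : 0 < N := (Real.rpow_pos_of_pos hL0 _).trans_le hN1
  have h3 := hg N hN1 hN2
  have h4 : Pool.Agent.N782.GN.SS k * ∫ t in (2 : ℝ)..N, 1 / (2 * Real.log t) =
      1 / 2 * (Pool.Agent.N782.GN.SS 1 * factor k) * ∫ t in (2 : ℝ)..N, 1 / Real.log t := by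
    have h5 : ∫ t in (2 : ℝ)..N, 1 / (2 * Real.log t) = 1 / 2 * ∫ t in (2 : ℝ)..N, 1 / Real.log t := by
      rw [← intervalIntegral.integral_const_mul]
      refine intervalIntegral.integral_congr fun t _ => ?_
      exact (one_div_mul_one_div 2 (Real.log t)).symm
    rw [h5, SS_eq k hk1]
    ring
  rw [count_eq k N hN0.le, ← h4]
  exact h3

end Pool.Agent.Results.MP_484c84_nt.ThinFamilySquareShifts
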