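import Pool.Agent.J6H16.E2.Pt

/-!
# The numbers `n² + k²` that are products of two primes, for almost all `k ≤ K`, where `K` may be as small as
`N ^ (1 / 3 + ε)`: an asymptotic formula

For almost all `k ≤ K` and uniformly for `K ^ (1 + ε) ≤ N ≤ K ^ (3 - ε)` and for the windows `K ^ δ ≤ y ≤ z ≤ K ^ (ε / 500)` we prove

`∑_{n ≤ N} ∑_{n² + k² = p q, y < p ≤ z} log p log q = C f(k) N log (z / y) + O (N (log K) ^ (-A))`,

where `p`, `q` are primes and `C f(k)` is the constant of the conjecture of the problem for `n² + k²` (the problem is `k = 1`).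

Proof (`Pool.Agent.J6H16.E2`, on top of the projects GN, PF and TH). The sum is one over the products `a b` of two Gaussian primes,
`y < N(a) ≤ z`, in the box `Re = k`, `|Im| ≤ M = N`. Vaughan's identity is applied to the second factor `b`. In the bilinear
sums the coefficients are the convolutions of the primes `a` with the Moebius function, of any size from `(M / K) M ^ ε` on; since
they have a small prime factor, the mean value theorem with the frequencies `arg ^ k` saves all the powers of the logarithm in the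
sectors of the width `K / M` already when the number of elements of norm `≤ R²` in the sector is a small power of `M`, that is from
`R² = (M / K) M ^ ε` on; for the Moebius function alone one needs `R² = (M / K)² M ^ ε`. The linear sums have level
`K M ^ (1 - ε)`, hence `(M / K)² ≤ K M ^ (1 - ε)`, that is `K ≥ M ^ (1 / 3 + ε)`.
-/

set_option autoImplicit false

namespace Pool.Agent.Results.MP_484c84_nt.TwoPrimeFormula

open Finset Filter Topology

/-- The partial products of the product of the problem: over the odd primes `p ≤ z`, the factors `1 - (-1/p) / (p - 1)`. -/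
noncomputable def partialC (z : ℕ) : ℝ :=
  ∏ p ∈ (Icc 3 z).filter Nat.Prime, (1 - (-1 : ℝ) ^ ((p - 1) / 2) / ((p : ℝ) - 1))

/-- The factor by which the constant for `n² + k²` differs from that for `n² + 1`: the factors of the product that belong to
the odd primes `p` dividing `k` are taken out. -/
noncomputable def factor (k : ℕ) : ℝ :=
  ∏ p ∈ k.primeFactors.filter (fun p => p ≠ 2), (1 - (-1 : ℝ) ^ ((p - 1) / 2) / ((p : ℝ) - 1))⁻¹

open Classical in
/-- The sum of `log p log q` over the factorizations `m = p q` with primes `p`, `q`, `y < p ≤ z`. -/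
noncomputable def weight (y z : ℝ) (m : ℕ) : ℝ :=
  ∑ c ∈ m.divisorsAntidiagonal.filter (fun c => c.1.Prime ∧ c.2.Prime ∧ y < (c.1 : ℝ) ∧ (c.1 : ℝ) ≤ z),
    Real.log c.1 * Real.log c.2

/-- The sum of these weights over the numbers `n² + k²`, `1 ≤ n ≤ N`. -/
noncomputable def total (k : ℕ) (N y z : ℝ) : ℝ := ∑ n ∈ Icc 1 ⌊N⌋₊, weight y z (n ^ 2 + k ^ 2)

/-- The conclusion for `k`: for all real `N` from `K ^ (1 + ε)` to `K ^ (3 - ε)` and all real `K ^ δ ≤ y ≤ z ≤ K ^ (ε / 500)`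
`|total k N y z - C (factor k) N log (z / y)| ≤ N / (log K) ^ A`. -/
def Good (C ε δ : ℝ) (A : ℕ) (K : ℝ) (k : ℕ) : Prop :=
  ∀ N y z : ℝ, K ^ (1 + ε) ≤ N → N ≤ K ^ (3 - ε) → K ^ δ ≤ y → y ≤ z → z ≤ K ^ (ε / 500) →
    |total k N y z - C * factor k * N * Real.log (z / y)| ≤ N / Real.log K ^ A

open Classical in
/-- The number of the `1 ≤ k ≤ K` for which the conclusion fails. -/
noncomputable def exceptions (C ε δ : ℝ) (A : ℕ) (K : ℝ) : ℕ :=
  ((Icc 1 ⌊K⌋₊).filter (fun k => ¬ Good C ε δ A K k)).card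

/-- The factor of the product that belongs to an odd prime. -/
theorem chi_eq (p : ℕ) (hp : p.Prime) (h3 : 3 ≤ p) :
    ((ZMod.χ₄ (p : ZMod 4) : ℤ) : ℝ) = (-1 : ℝ) ^ ((p - 1) / 2) := by
  have hodd : p % 2 = 1 := hp.eq_two_or_odd.resolve_left (by omega)
  rw [ZMod.χ₄_eq_neg_one_pow hodd]
  have : (p - 1) / 2 = p / 2 := by omega
  rw [this]
  push_cast
  rfl

theorem factor_ne (p : ℕ) (h3 : 3 ≤ p) : (1 - (-1 : ℝ) ^ ((p - 1) / 2) / ((p : ℝ) - 1)) ≠ 0 := by
  have hp : (3 : ℝ) ≤ p := by exact_mod_cast h3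
  rcases neg_one_pow_eq_or ℝ ((p - 1) / 2) with h | h <;> rw [h]
  · have : (1 : ℝ) / ((p : ℝ) - 1) < 1 := by
      rw [div_lt_one (by linarith)]
      linarith
    linarith
  · have : (-1 : ℝ) / ((p : ℝ) - 1) < 0 := div_neg_of_neg_of_pos (by norm_num) (by linarith)
    linarith

theorem pp_one (z : ℕ) : Pool.Agent.N782.GN.pp 1 z = partialC z := by
  unfold Pool.Agent.N782.GN.pp partialC
  have h1 : (Icc 3 z).filter (fun p : ℕ => p.Prime ∧ ¬ (p : ℤ) ∣ 1) = (Icc 3 z).filter Nat.Prime := by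
    apply filter_congr
    intro p hp
    constructor
    · exact fun h => h.1
    · intro h
      refine ⟨h, fun hd => ?_⟩
      have := Int.natAbs_dvd_natAbs.2 hd
      rw [Int.natAbs_natCast, Int.natAbs_one, Nat.dvd_one] at this
      exact h.one_lt.ne' this
  rw [h1]
  refine prod_congr rfl fun p hp => ?_
  rw [mem_filter, mem_Icc] at hp
  rw [chi_eq p hp.2 hp.1.1]

theorem pp_mul (l z : ℕ) (hl : 0 < l) (hz : l ≤ z) : Pool.Agent.N782.GN.pp l z = partialC z * factor l := by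
  unfold Pool.Agent.N782.GN.pp partialC factor
  have h1 : (Icc 3 z).filter Nat.Prime = (Icc 3 z).filter (fun p : ℕ => p.Prime ∧ ¬ (p : ℤ) ∣ (l : ℤ)) ∪
      l.primeFactors.filter (fun p => p ≠ 2) := by
    ext p
    simp only [mem_filter, mem_Icc, mem_union, Nat.mem_primeFactors, Int.natCast_dvd_natCast]
    constructor
    · rintro ⟨⟨h3, hz'⟩, hp⟩
      by_cases hd : p ∣ l
      · exact Or.inr ⟨⟨hp, hd, hl.ne'⟩, by omega⟩
      · exact Or.inl ⟨⟨h3, hz'⟩, hp, hd⟩
    · rintro (⟨⟨h3, hz'⟩, hp, -⟩ | ⟨⟨hp, hd, -⟩, h2⟩)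
      · exact ⟨⟨h3, hz'⟩, hp⟩
      · have := hp.two_le
        exact ⟨⟨by omega, (Nat.le_of_dvd hl hd).trans hz⟩, hp⟩
  have hdis : Disjoint ((Icc 3 z).filter (fun p : ℕ => p.Prime ∧ ¬ (p : ℤ) ∣ (l : ℤ)))
      (l.primeFactors.filter (fun p => p ≠ 2)) := by
    rw [disjoint_left]
    intro p hp hp'
    rw [mem_filter] at hp hp'
    exact hp.2.2 (Int.natCast_dvd_natCast.2 (Nat.dvd_of_mem_primeFactors hp'.1))
  rw [h1, prod_union hdis, mul_assoc, ← prod_mul_distrib]
  have h2 : ∏ p ∈ l.primeFactors.filter (fun p => p ≠ 2), ((1 - (-1 : ℝ) ^ ((p - 1) / 2) / ((p : ℝ) - 1)) *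
      (1 - (-1 : ℝ) ^ ((p - 1) / 2) / ((p : ℝ) - 1))⁻¹) = 1 := by
    apply prod_eq_one
    intro p hp
    rw [mem_filter, Nat.mem_primeFactors] at hp
    have := hp.1.1.two_le
    exact mul_inv_cancel₀ (factor_ne p (by omega))
  rw [h2, mul_one]
  refine prod_congr rfl fun p hp => ?_
  rw [mem_filter, mem_Icc] at hp
  rw [chi_eq p hp.2.1 hp.1.1]

/-- The constant for the denominator `l`. -/
theorem SS_eq (l : ℕ) (hl : 0 < l) : Pool.Agent.N782.GN.SS l = Pool.Agent.N782.GN.SS 1 * factor l := by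
  obtain ⟨h1, -⟩ := Pool.Agent.N782.GN.c_ssl (l : ℤ) (by omega)
  obtain ⟨h2, -⟩ := Pool.Agent.N782.GN.c_ssl 1 (by omega)
  have h3 := h2.mul_const (factor l)
  refine tendsto_nhds_unique (h1.congr' ?_) h3
  filter_upwards [eventually_ge_atTop l] with z hz
  rw [pp_mul l z hl hz, pp_one]

theorem weight_eq (y z : ℝ) (m : ℕ) : weight y z m = Pool.Agent.J6H16.E2.w2 y z m := by
  classical
  unfold weight Pool.Agent.J6H16.E2.w2
  symm
  apply Finset.sum_bij (fun p _ => (p, m / p))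
  · intro p hp
    rw [mem_filter, Nat.mem_primeFactors] at hp
    rw [mem_filter, Nat.mem_divisorsAntidiagonal]
    exact ⟨⟨Nat.mul_div_cancel' hp.1.2.1, hp.1.2.2⟩, hp.1.1, hp.2.1, hp.2.2.1, hp.2.2.2⟩
  · intro p _ p' _ h
    exact (Prod.mk.inj h).1
  · rintro ⟨p, q⟩ h
    rw [mem_filter, Nat.mem_divisorsAntidiagonal] at h
    obtain ⟨⟨h1, h2⟩, h3, h4, h5, h6⟩ := h
    simp only at h1 h3 h4 h5 h6
    have hq : m / p = q := by rw [← h1, Nat.mul_div_cancel_left _ h3.pos]
    refine ⟨p, ?_, by rw [hq]⟩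
    rw [mem_filter, Nat.mem_primeFactors]
    exact ⟨⟨h3, ⟨q, h1.symm⟩, h2⟩, by rw [hq]; exact h4, h5, h6⟩
  · intro p _
    rfl

theorem total_eq (k : ℕ) (N y z : ℝ) (hN : 0 ≤ N) : total k N y z = Pool.Agent.J6H16.E2.Wl (k : ℤ) N y z := by
  unfold total Pool.Agent.J6H16.E2.Wl
  symm
  apply Finset.sum_bij (fun (m : ℤ) _ => m.toNat)
  · intro m hm
    rw [mem_Icc, Int.le_floor] at hm
    rw [mem_Icc]
    refine ⟨by omega, Nat.le_floor ?_⟩
    have h1 : ((m.toNat : ℕ) : ℤ) = m := Int.toNat_of_nonneg (by omega)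
    have h2 : ((m.toNat : ℕ) : ℝ) = (m : ℝ) := by exact_mod_cast h1
    rw [h2]
    exact hm.2
  · intro m hm m' hm' h
    rw [mem_Icc] at hm hm'
    omega
  · intro n hn
    rw [mem_Icc, Nat.le_floor_iff hN] at hn
    refine ⟨(n : ℤ), ?_, Int.toNat_natCast n⟩
    rw [mem_Icc, Int.le_floor]
    exact ⟨by exact_mod_cast hn.1, by exact_mod_cast hn.2⟩
  · intro m hm
    rw [mem_Icc] at hm
    rw [weight_eq]
    congr 1
    have h1 : ((m.toNat : ℕ) : ℤ) = m := Int.toNat_of_nonneg (by omega)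
    have h2 : (k : ℤ) ^ 2 + m ^ 2 = ((m.toNat ^ 2 + k ^ 2 : ℕ) : ℤ) := by
      push_cast
      rw [h1]
      ring
    rw [h2, Int.natAbs_natCast]

/-- **The formula for the products of two primes among the numbers `n² + k²`, for almost all `k ≤ K`, uniformly for
`K ^ (1 + ε) ≤ N ≤ K ^ (3 - ε)` and `K ^ δ ≤ y ≤ z ≤ K ^ (ε / 500)`.** The product `C` of the problem converges to a positive number,
and for all `ε, δ > 0`, `A` and all large `K`, all but at most `K / (log K) ^ A` of the integers `1 ≤ k ≤ K` satisfy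
`|total k N y z - C (factor k) N log (z / y)| ≤ N / (log K) ^ A` for all these `N`, `y`, `z`. -/
theorem result : ∃ C : ℝ, 0 < C ∧ Tendsto partialC atTop (𝓝 C) ∧ ∀ (ε δ : ℝ) (A : ℕ), 0 < ε → 0 < δ →
    ∃ K₀ : ℝ, ∀ K : ℝ, K₀ ≤ K → (exceptions C ε δ A K : ℝ) ≤ K / Real.log K ^ A := by
  classical
  obtain ⟨hC1, hC2⟩ := Pool.Agent.N782.GN.c_ssl 1 (by omega)
  refine ⟨Pool.Agent.N782.GN.SS 1, hC2, hC1.congr fun z => pp_one z, fun ε δ A hε hδ => ?_⟩
  by_cases hε1 : ε ≤ 1
  swap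
  · push Not at hε1
    refine ⟨3, fun K hK => ?_⟩
    have hK0 : 0 < K := by linarith
    have e : exceptions (Pool.Agent.N782.GN.SS 1) ε δ A K = 0 := by
      unfold exceptions
      rw [card_eq_zero, filter_eq_empty_iff]
      intro k _
      rw [not_not]
      intro N y z h1 h2
      exfalso
      have h3 : K ^ (3 - ε) < K ^ (1 + ε) := Real.rpow_lt_rpow_of_exponent_lt (by linarith) (by linarith)
      linarith
    rw [e]
    have : 0 ≤ Real.log K := Real.log_nonneg (by linarith)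
    push_cast
    positivity
  obtain ⟨L₀, h⟩ := eventually_atTop.1 (Pool.Agent.J6H16.E2.grid_e2 ε δ A hε hε1 hδ)
  refine ⟨max L₀ 3, fun K hK => ?_⟩
  have hK3 : 3 ≤ K := (le_max_right _ _).trans hK
  have hK0 : 0 < K := by linarith
  refine le_trans ?_ (h K ((le_max_left _ _).trans hK))
  unfold exceptions
  rw [Nat.cast_le]
  apply card_le_card_of_injOn (fun k : ℕ => (k : ℤ))
  · intro k hk
    rw [mem_coe, mem_filter, mem_Icc, Nat.le_floor_iff hK0.le] at hk
    rw [mem_coe, mem_filter, mem_Icc, Int.le_floor]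
    have h1 : (1 : ℤ) ≤ (k : ℤ) := by exact_mod_cast hk.1.1
    have h2 : (((k : ℤ)) : ℝ) ≤ K := by exact_mod_cast hk.1.2
    refine ⟨⟨h1, h2⟩, fun hg => hk.2 ?_⟩
    intro N y z hN1 hN2 hy hyz hz
    have hN0 : 0 < N := (Real.rpow_pos_of_pos hK0 _).trans_le hN1
    have h3 := hg N y z hN1 hN2 hy hyz hz
    rw [total_eq k N y z hN0.le]
    have h4 : Pool.Agent.N782.GN.SS 1 * factor k * N * Real.log (z / y) =
        N * Pool.Agent.N782.GN.SS (k : ℤ) * Real.log (z / y) := by
      rw [SS_eq k (by omega)]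
      ring
    rw [h4]
    exact h3
  · intro a _ b _ hab
    simpa using hab

end Pool.Agent.Results.MP_484c84_nt.TwoPrimeFormula
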