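import Pool.Agent.J6H61.GC.Cor

/-!
# Translates of the set of the `n` with `n ^ 2 + 1` prime by arbitrary sets, and residue classes

Let `D ≥ 1`; for `D = 1` the numbers `n ^ 2 + D` are those of the problem.

For ARBITRARY sets of `c log Y log log Y` integers `s`, of size up to any power of `Y`, every interval of length `Y`
contains `Y ^ (1 - δ)` integers `n` such that all the numbers `(n + s) ^ 2 + D` are composite, although about `log log Y`
of them should be primes; and the same for the numbers `(n + s) ^ 2 + D m ^ 2` (for `D = 1` the norms of the Gaussian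
integers `n + s + m i`) for arbitrary sets of pairs `(s, m)`, where the pair is counted with the weight `m / φ(m)`.
Consequences: for every modulus `q` the least `a ≡ b (mod q)` with `a ^ 2 + D` prime may be larger than its expected size,
which is of the order `g(q) log q` (`g(q)` the number of the admissible classes), by the factor `c log log q`, for
`q ^ (1 - δ)` admissible classes `b`; and the set of the `b` with `b ^ 2 + D` prime has no additive complement with
`O(log N)` elements up to `N` (for the primes themselves this was a question of Erdős, settled in the starting files).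

The known results (starting files: `Pool.Agent.N201.SP.composite` of helper201, `MP_73869e_nt.ConsecutiveSquares`) are for
shifts of size at most a power of `log Y`; for large shifts the polynomials `(X + s) ^ 2 + D m ^ 2` may have common roots modulo
primes of any size. The proof uses the covering theorem of the starting files (`Pool.Agent.W154.PV.CovD`, on the covering
sieve of helper256, helper378, helper426 and others) without the primes which divide one of the resultants or one of the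
`m`, after a choice of residue classes for the small primes which do not divide `q`; the primes dividing `q` enter by an
inclusion-exclusion.
-/

set_option autoImplicit false

namespace Pool.Agent.Results.MP_484c84_nt.ArbitraryTranslates

open Finset

/-- `g(q)`: the number of the residue classes `b` modulo `q` such that `b ^ 2 + D` is prime to `q`. -/
def classes (D q : ℕ) : ℕ := ((range q).filter (fun b : ℕ => Nat.Coprime (b ^ 2 + D) q)).card

/-- `n` is in `(M, M + Y]`, `n ^ 2 + D` is prime to `q`, and for all `(s, m) ∈ S` the positive integer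
`(n + s) ^ 2 + D m ^ 2` has a prime factor `p ≤ exp ((log Y) ^ (1/20))` smaller than itself (so it is composite). -/
def Good (D q : ℕ) (Y : ℝ) (M : ℤ) (S : Finset (ℤ × ℕ)) (n : ℤ) : Prop :=
  M < n ∧ (n : ℝ) ≤ M + Y ∧ IsCoprime (n ^ 2 + (D : ℤ)) (q : ℤ) ∧
    ∀ z ∈ S, ∃ p : ℕ, p.Prime ∧ (p : ℝ) ≤ Real.exp ((Real.log Y) ^ (1 / 20 : ℝ)) ∧
      (p : ℤ) ∣ (n + z.1) ^ 2 + (D : ℤ) * (z.2 : ℤ) ^ 2 ∧
      (p : ℤ) < (n + z.1) ^ 2 + (D : ℤ) * (z.2 : ℤ) ^ 2

/-- `0 ≤ b < q`, `b ^ 2 + D` is prime to `q`, and `a ^ 2 + D` is not a prime for all natural numbers `a ≡ b (mod q)` with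
`a + q ≤ T`. -/
def EmptyClass (D q : ℕ) (T : ℝ) (b : ℕ) : Prop :=
  b < q ∧ Nat.Coprime (b ^ 2 + D) q ∧
    ∀ a : ℕ, a % q = b → (a : ℝ) + q ≤ T → ¬ (a ^ 2 + D).Prime

/-- Let `D ≥ 1`, `K ≥ 0` and `0 < δ ≤ 1`.

1. There are `c > 0` and `Y₀` such that for all `Y ≥ Y₀`, all integers `M`, all `1 ≤ q ≤ Y ^ K` and all finite sets `S` of
pairs `(s, m)` of integers with `|s| ≤ Y ^ K`, `1 ≤ m ≤ Y ^ K` and `∑ m / φ(m) ≤ c (g(q) / q) log Y log log Y`
(`m / φ(m) = 1` for `m = 1`) at least `Y ^ (1 - δ)` integers `n` are `Good`: they are in `(M, M + Y]`, `n ^ 2 + D` is prime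
to `q`, and all the numbers `(n + s) ^ 2 + D m ^ 2` are composite, with a prime factor at most `exp ((log Y) ^ (1/20))`.

2. There is `c > 0` such that for all large `q` at least `q ^ (1 - δ)` residue classes `b` modulo `q` are such that
`b ^ 2 + D` is prime to `q` and no `a ≡ b (mod q)`, `0 ≤ a ≤ c g(q) log q log log q - q`, has `a ^ 2 + D` prime.

3. There is `c > 0` such that every set `A` of natural numbers for which all large `n` are of the form `a + b`, `a ∈ A`,
`b ≥ 0`, `b ^ 2 + D` prime, has more than `c log N log log N` elements `≤ N`, for all large `N`. -/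
theorem result (D : ℕ) (hD : 1 ≤ D) (K δ : ℝ) (hK : 0 ≤ K) (hδ : 0 < δ) (hδ1 : δ ≤ 1) :
    (∃ c : ℝ, 0 < c ∧ ∃ Y₀ : ℝ, ∀ Y : ℝ, Y₀ ≤ Y → ∀ (M : ℤ) (q : ℕ), 1 ≤ q → (q : ℝ) ≤ Y ^ K →
      ∀ S : Finset (ℤ × ℕ), (∀ z ∈ S, 1 ≤ z.2 ∧ |(z.1 : ℝ)| ≤ Y ^ K ∧ (z.2 : ℝ) ≤ Y ^ K) →
      ∑ z ∈ S, (z.2 : ℝ) / (Nat.totient z.2 : ℝ) ≤
        c * ((classes D q : ℝ) / q) * Real.log Y * Real.log (Real.log Y) →
      Y ^ (1 - δ) ≤ ({n : ℤ | Good D q Y M S n}.ncard : ℝ)) ∧
    (∃ c : ℝ, 0 < c ∧ ∃ q₀ : ℕ, ∀ q : ℕ, q₀ ≤ q → (q : ℝ) ^ (1 - δ) ≤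
      ({b : ℕ | EmptyClass D q (c * classes D q * Real.log q * Real.log (Real.log q)) b}.ncard : ℝ)) ∧
    (∃ c : ℝ, 0 < c ∧ ∀ A : Set ℕ,
      (∃ n₀ : ℕ, ∀ n : ℕ, n₀ ≤ n → ∃ a ∈ A, ∃ b : ℕ, (b ^ 2 + D).Prime ∧ n = a + b) →
      ∃ N₀ : ℕ, ∀ N : ℕ, N₀ ≤ N →
        c * Real.log N * Real.log (Real.log N) < ((A ∩ Set.Iic N).ncard : ℝ)) :=
  ⟨Pool.Agent.J6H61.GC.freq D hD K δ hK hδ, Pool.Agent.J6H61.GC.progressions D hD δ hδ hδ1,
    Pool.Agent.J6H61.GC.complements D hD⟩

end Pool.Agent.Results.MP_484c84_nt.ArbitraryTranslates
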