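import Pool.Agent.J6H16.E4.Fu

/-!
# Cancellation of the Liouville function in the values `n² + k²`, for almost all `k`

Let `Ω(m)` be the number of the prime factors of `m` with multiplicity, so that `(-1) ^ Ω(m)` is the Liouville function, and let
`total k N` be its sum over the `n² + k²`, `n ≤ N`. We bound `total k N` for almost all `k ≤ K` and all `N` from `K ^ (1 + ε)` to
`K ^ E`, for every exponent `E`, by `(ρ + η) N` with a constant `ρ < 1`, which is `0` as long as `E < 3`. So the values `n² + k²`
have an even number and an odd number of prime factors equally often if `N ≤ K ^ E`, `E < 3`, and each with a positive proportion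
for every `E`. This is the conjecture of Chowla for the polynomials `n² + k²`, for almost all `k`, where `k` may be as small as
`N ^ (1 / 3 + ε)`; and its weak form (no parity has density one) for `k` as small as any power of `N`.

Proof for `E < 3` (`Pool.Agent.J6H16.E4`, on top of `Pool.Agent.J6H16.E2`, `PR`, `PF` and of the project GN). By the inequality of
Turán and Kubilius on the line `Re z = k` (`E4.TKL`), it suffices to bound the sums over the line of the convolutions of the
Liouville function with the primes of `ℤ[i]` in the windows `(M ^ κ, M ^ κ']`, `κ'` small. On average over `k`, for all lengths,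
these are smaller than trivial by any power of the logarithm (`E4.Ue`): the Liouville function is reduced to the Möbius function
by a sum over squares, the Möbius function is decomposed by the identity of Vaughan, and all the bilinear forms with one variable
of norm between `M ^ (2 / 3 + ε)` and `M ^ (4 / 3 - ε)` are bounded by the dispersion estimate `S_TG2` with large determinants; the
mean squares over the angular frequencies are bounded by the theorem on primes for the characters of Hecke in the small prime, and
by the mean value theorem in the rest. For `E ≥ 3` (`PF.Fi`) the range of the bilinear forms is shorter, and the products of two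
and of three primes in this range are compared in the dispersion.
-/

set_option autoImplicit false

namespace Pool.Agent.Results.MP_484c84_nt.LiouvilleSquareShifts

open Finset Filter Topology

/-- The sum of the Liouville function over the values `n² + k²`, `1 ≤ n ≤ N`: the number of the `n` for which `n² + k²` has an
even number of prime factors (with multiplicity), minus the number of the `n` for which this number is odd. -/
noncomputable def total (k : ℕ) (N : ℝ) : ℝ := ∑ n ∈ Icc 1 ⌊N⌋₊, (-1 : ℝ) ^ ArithmeticFunction.cardFactors (n ^ 2 + k ^ 2)

/-- The conclusion for `k`: `|total k N| ≤ ρ N` for all real `N` from `K ^ (1 + ε)` to `K ^ E`. -/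
def Good (ε E ρ K : ℝ) (k : ℕ) : Prop := ∀ N : ℝ, K ^ (1 + ε) ≤ N → N ≤ K ^ E → |total k N| ≤ ρ * N

open Classical in
/-- The number of the `1 ≤ k ≤ K` for which the conclusion fails. -/
noncomputable def exceptions (ε E ρ K : ℝ) : ℕ := ((Icc 1 ⌊K⌋₊).filter (fun k => ¬ Good ε E ρ K k)).card

/-- **For all `ε > 0` and real `E` there is `ρ < 1`, with `ρ = 0` if `E < 3`, such that for all `η > 0`, `A` and all large `K`,
for all but at most `K / (log K) ^ A` of the `k ≤ K`, the sum of the Liouville function over the `n² + k²`, `n ≤ N`, is at most
`(ρ + η) N`, for all `K ^ (1 + ε) ≤ N ≤ K ^ E`.** -/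
theorem result (ε E : ℝ) (hε : 0 < ε) : ∃ ρ : ℝ, 0 ≤ ρ ∧ ρ < 1 ∧ (E < 3 → ρ = 0) ∧ ∀ (η : ℝ) (A : ℕ), 0 < η →
    ∃ K₀ : ℝ, ∀ K : ℝ, K₀ ≤ K → (exceptions ε E (ρ + η) K : ℝ) ≤ K / Real.log K ^ A :=
  Pool.Agent.J6H16.E4.fin_u ε E hε

end Pool.Agent.Results.MP_484c84_nt.LiouvilleSquareShifts
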